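import Pool.Agent.H69.KleinBottle

/-! Every Klein bottle has a totally skew embedding in eight-dimensional space. -/

set_option autoImplicit false

open scoped Manifold ContDiff

namespace Pool.Agent.Results.MP_794fdb_gt.KleinBottleInEight

open Pool.Agent.H69.SkewQuot Pool.Agent.H69.KleinBottle

/-- Every smooth manifold which is a Klein bottle has a totally skew embedding in
eight-dimensional space. (And there is such a manifold: the quotient of the torus by the free
involution `(z, w) ↦ (-z, conj w)`.) -/
theorem result :
    (∀ (E H : Type) [NormedAddCommGroup E] [NormedSpace ℝ E] [TopologicalSpace H]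
      (I : ModelWithCorners ℝ E H) (M : Type) [TopologicalSpace M] [ChartedSpace H M],
      IsKleinBottle I M → ∃ F : M → EuclideanSpace ℝ (Fin 8), TotallySkewEmb I F) ∧
    KleinBottleExists :=
  ⟨fun _ _ _ _ _ I M _ _ h => embeds I M h, klein_exists⟩

end Pool.Agent.Results.MP_794fdb_gt.KleinBottleInEight
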